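import Pool.Agent.Q176.TW.A

/-!
# Small-time null control of the Navier-Stokes equations: the energy cost of weak null controls

Any dimension, weak solutions. Let `ω` be an open subset of the domain (away from the controlled
boundary or not), `u` a weak solution in `(0, T) × ω` which vanishes at time `T`. Testing the
equations with one divergence-free field `ψ` supported in `ω` shows that the space-time energy
of `u` in `ω` is bounded below by a constant which does not tend to zero with `T`, unless the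
initial velocity is orthogonal to `ψ`.
-/

open MeasureTheory Set Filter

namespace Pool.Agent.Results.MP_79abb3_an.EnergyCost

open Q176.TW

/-- Let `u` be a weak solution of the Navier-Stokes equations in `(0, T) × ω` with `u(T) = 0` in
`ω`, let `ψ` be a divergence-free test field in `ω` with `|∇ψ| ≤ G` and `‖Δψ‖_{L²(ω)} ≤ L`, and
`m = |∫_ω u(0)·ψ|`, `A = ∫_0^T ∫_ω |u|²`. Then `m ≤ G A + L √(T A)`, hence
`A ≥ min (m / 2G, m² / (4 L² T))`, and the essential supremum of the kinetic energy in `ω` is at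
least `min (m / 2G, m² / (4 L² T)) / T`. -/
theorem result {d : ℕ} {T : ℝ} (hT : 0 < T) {ω : Set (E d)} {u : ℝ → E d → E d}
    (hu : IsWeakNS T ω u) (h0 : ∀ᵐ x ∂(volume.restrict ω), u T x = 0)
    {ψ : E d → E d} (hψ : IsTest ω ψ) {G L : ℝ} (hG0 : 0 < G) (hL0 : 0 < L)
    (hG : ∀ x, ‖fderiv ℝ ψ x‖ ≤ G) (hL : ∫ x in ω, ‖lapl ψ x‖ ^ 2 ≤ L ^ 2) :
    |∫ x in ω, inner ℝ (u 0 x) (ψ x)| ≤ G * (∫ z, ‖u z.1 z.2‖ ^ 2 ∂(stm T ω))
        + L * Real.sqrt (T * ∫ z, ‖u z.1 z.2‖ ^ 2 ∂(stm T ω)) ∧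
    min (|∫ x in ω, inner ℝ (u 0 x) (ψ x)| / (2 * G))
        (|∫ x in ω, inner ℝ (u 0 x) (ψ x)| ^ 2 / (4 * L ^ 2 * T))
      ≤ ∫ z, ‖u z.1 z.2‖ ^ 2 ∂(stm T ω) ∧
    ∀ K : ℝ, (∀ᵐ t ∂(volume.restrict (Ioc 0 T)), ∫ x in ω, ‖u t x‖ ^ 2 ≤ K) →
      min (|∫ x in ω, inner ℝ (u 0 x) (ψ x)| / (2 * G))
        (|∫ x in ω, inner ℝ (u 0 x) (ψ x)| ^ 2 / (4 * L ^ 2 * T)) / T ≤ K := by
  have hA : 0 ≤ ∫ z, ‖u z.1 z.2‖ ^ 2 ∂(stm T ω) := integral_nonneg fun z => by positivity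
  have hz : ∫ x in ω, inner ℝ (u T x) (ψ x) = 0 := by
    have : ∫ x in ω, inner ℝ (u T x) (ψ x) = ∫ _x in ω, (0:ℝ) := by
      apply integral_congr_ae
      filter_upwards [h0] with x hx
      rw [hx, inner_zero_left]
    rw [this]
    simp
  have h1 : |∫ x in ω, inner ℝ (u 0 x) (ψ x)| ≤ G * (∫ z, ‖u z.1 z.2‖ ^ 2 ∂(stm T ω))
        + L * Real.sqrt (T * ∫ z, ‖u z.1 z.2‖ ^ 2 ∂(stm T ω)) := by
    refine opt hA hT hL0 fun l hl => ?_
    have := young hT hu hψ hG (lapl_int hψ) hL l hl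
    rw [hz, zero_sub, abs_neg] at this
    exact this
  have h2 := minbd hA hG0 hT hL0 (abs_nonneg _) h1
  refine ⟨h1, h2, fun K hK => ?_⟩
  have h3 : ∫ z, ‖u z.1 z.2‖ ^ 2 ∂(stm T ω) ≤ T * K := by
    have hsq := hu.sq
    unfold stm at hsq ⊢
    rw [integral_prod _ hsq]
    calc ∫ t in Ioc 0 T, ∫ x in ω, ‖u t x‖ ^ 2 ≤ ∫ _t in Ioc 0 T, K :=
          integral_mono_ae hsq.integral_prod_left (integrable_const K) hK
      _ = T * K := by
          simp only [integral_const, smul_eq_mul, Measure.real, Measure.restrict_apply_univ,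
            Real.volume_Ioc]
          rw [sub_zero, ENNReal.toReal_ofReal hT.le]
  rw [div_le_iff₀ hT]
  linarith

end Pool.Agent.Results.MP_79abb3_an.EnergyCost
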