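import Pool.Agent.Q176.FI.B

/-!
# Small-time null control of the Navier-Stokes equations: the interior has to be flushed

Dimension two. The theorem concerns an arbitrary classical trajectory on `[0, T]` (driven by any
boundary control) in a disc `B(c, δ)` inside the domain; nothing is assumed outside the disc. If the
initial vorticity is `≥ a > 0` in the disc and the displacement `L(T) = ∫_0^T l` is at most `δ/4`,
where `|(u, v)(t, ·)| ≤ l(t)` in the disc, then at time `T` the vorticity at `c` is still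
`≥ a - 3 K exp(-δ²/(128 T))`, `K` a bound for the vorticity. So a null control in time `T` has
`∫_0^T sup |(u, v)| dt > δ/4`, or `K ≥ (a/3) exp(δ²/(128 T))`: the mean speed in the disc must be
larger than `δ/(4T)`, or the vorticity exponentially large.

Method: the vorticity satisfies a maximum principle; it is compared with an explicit subsolution in
a disc which shrinks at the speed of the flow. The vorticity equation is derived from the
Navier-Stokes equations in `Pool.Agent.Q176.WL.A1`.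
-/

open Set

namespace Pool.Agent.Results.MP_79abb3_an.FlushInterior

open Pool.Agent.Q176.WL Pool.Agent.Q176.FI

/-- Let `(u, v, p)` be a classical solution of the Navier-Stokes equations with unit viscosity in
`(0, T) × B(c, δ)`, whose vorticity `w = v_x - u_y` extends continuously to `[0, T] × B(c, δ)`.
Let `|(u, v)(t, z)| ≤ l(t)`, `l ≥ 0`, and let `L` be continuous on `[0, T]` with `L(0) = 0` and
`L' = l` in `(0, T)`, so `L(T) = ∫_0^T l`. Let `|w| ≤ K` and `w(0, ·) ≥ a`, `0 < a ≤ K`. Suppose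
`L(T) ≤ δ/4`. Then `w(T, c) ≥ a - 3 K exp (-δ² / (128 T))`; and if `w(T, c) ≤ b < a` (`b = 0` if
the velocity vanishes at time `T`), then `δ² ≤ 128 T log (3 K / (a - b))`. -/
theorem result {c : ℝ × ℝ} {δ : ℝ} (hδ : 0 < δ)
    {T : ℝ} (hT : 0 < T) {u v p w : E → ℝ} (hns : IsNS (Ioo 0 T ×ˢ Disc c δ) u v p)
    (hw : ∀ z ∈ Ioo 0 T ×ˢ Disc c δ, w z = pd ex v z - pd ey u z)
    (hwc : ContinuousOn w (Icc 0 T ×ˢ Disc c δ))
    {L l : ℝ → ℝ} (hLc : ContinuousOn L (Icc 0 T)) (hL0 : L 0 = 0)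
    (hLd : ∀ t ∈ Ioo 0 T, HasDerivAt L (l t) t) (hl : ∀ t ∈ Ioo 0 T, 0 ≤ l t)
    (huv : ∀ z ∈ Ioo 0 T ×ˢ Disc c δ, u z ^ 2 + v z ^ 2 ≤ l z.1 ^ 2)
    {K a : ℝ} (ha : 0 < a) (haK : a ≤ K) (hK : ∀ z ∈ Ioo 0 T ×ˢ Disc c δ, |w z| ≤ K)
    (h0 : ∀ z ∈ Disc c δ, a ≤ w (0, z)) (hLT : L T ≤ δ / 4) :
    a - 3 * K * Real.exp (-(δ ^ 2 / (128 * T))) ≤ w (T, c) ∧
    ∀ b < a, w (T, c) ≤ b → δ ^ 2 ≤ 128 * T * Real.log (3 * K / (a - b)) :=
  main hδ hT hns hw hwc hLc hL0 hLd hl huv ha haK hK h0 hLT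

end Pool.Agent.Results.MP_79abb3_an.FlushInterior
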