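import Pool.Agent.Q176.WL.A4

/-!
# Small-time null control of the Navier-Stokes equations: the action near a Dirichlet wall

Dimension two. The theorem concerns an arbitrary classical trajectory on `[0, T]` (driven by any
boundary control) near a point `c` of the uncontrolled no-slip wall; nothing is assumed outside the
disc `B(c, δ)`. If `|(u, v)| ≤ ℓ(t) d` there (`d` the distance to the wall, so `ℓ(t)` can be the
supremum of the velocity gradient) and the initial vorticity is `≥ a > 0` in the disc, then at time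
`T` the vorticity is still almost `≥ a` at the points of the disc `B(c, δ/2)` at distance
`δ e^{-Λ}/32 ≤ d ≤ δ e^{-Λ}/16` from the wall, `Λ = ∫_0^T ℓ`, unless
`Λ ≥ (1/4) log (δ² / (2¹⁵ T log (6 K / a)))`, `K` the supremum of the vorticity. So a null control
in time `T` needs this action `Λ`, which tends to infinity as `T → 0`.

Method: the vorticity satisfies a maximum principle; it is compared with an explicit subsolution in
a box which shrinks towards the wall at the speed of the flow (barriers with exponents adapted to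
the stretching `e^{Λ}` near the wall). The vorticity equation is derived from the Navier-Stokes
equations in `Pool.Agent.Q176.WL.A1`.
-/

open Set

namespace Pool.Agent.Results.MP_79abb3_an.WallAction

open Pool.Agent.Q176.WL

/-- Let `Ω` be an open set in the plane, `c` a point, `δ > 0` and `d` a distance-like function of
`∂Ω` in the disc `B(c, δ)` (`IsWall`). Let `(u, v, p)` be a classical solution of the
Navier-Stokes equations with unit viscosity in `(0, T) × (Ω ∩ B(c, δ))`, whose vorticity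
`w = v_x - u_y` extends continuously to `[0, T] × (Ω ∩ B(c, δ))`. Let
`|(u, v)(t, z)| ≤ l(t) d(z)`, `l ≥ 0`, and let `L` be continuous on `[0, T]` with `L(0) = 0` and
`L' = l` in `(0, T)`, so `L(T) = ∫_0^T l`. Let `|w| ≤ K` and `w(0, ·) ≥ a`, `0 < a ≤ K`.

Then for all `z ∈ Ω` with `|z - c| ≤ δ/2` and `δ e^{-L(T)}/32 ≤ d(z) ≤ δ e^{-L(T)}/16`:
`w(T, z) ≥ a - 6 K exp (-δ² e^{-4 L(T)} / (2¹⁵ T))`; and if `w(T, z) ≤ b` with `0 ≤ b < a`
(`b = 0` if the velocity vanishes at time `T`), then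
`L(T) ≥ (1/4) log (δ² / (2¹⁵ T log (6 K / (a - b))))`. -/
theorem result {Ω : Set (ℝ × ℝ)} {c : ℝ × ℝ} {δ : ℝ} {d : ℝ × ℝ → ℝ} (hd : IsWall Ω c δ d)
    {T : ℝ} (hT : 0 < T) {u v p w : E → ℝ} (hns : IsNS (Ioo 0 T ×ˢ Reg Ω c δ) u v p)
    (hw : ∀ z ∈ Ioo 0 T ×ˢ Reg Ω c δ, w z = pd ex v z - pd ey u z)
    (hwc : ContinuousOn w (Icc 0 T ×ˢ Reg Ω c δ))
    {L l : ℝ → ℝ} (hLc : ContinuousOn L (Icc 0 T)) (hL0 : L 0 = 0)
    (hLd : ∀ t ∈ Ioo 0 T, HasDerivAt L (l t) t) (hl : ∀ t ∈ Ioo 0 T, 0 ≤ l t)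
    (huv : ∀ z ∈ Ioo 0 T ×ˢ Reg Ω c δ, u z ^ 2 + v z ^ 2 ≤ (l z.1 * d z.2) ^ 2)
    {K a : ℝ} (ha : 0 < a) (haK : a ≤ K) (hK : ∀ z ∈ Ioo 0 T ×ˢ Reg Ω c δ, |w z| ≤ K)
    (h0 : ∀ z ∈ Reg Ω c δ, a ≤ w (0, z)) {z : ℝ × ℝ} (hz : z ∈ Reg Ω c δ)
    (hz1 : dsq z c ≤ δ ^ 2 / 4)
    (hz2 : δ * Real.exp (-L T) / 32 ≤ d z) (hz3 : d z ≤ δ * Real.exp (-L T) / 16) :
    a - 6 * K * Real.exp (-(δ ^ 2 * Real.exp (-L T) ^ 4 / (2 ^ 15 * T))) ≤ w (T, z) ∧
    ∀ b, 0 ≤ b → b < a → w (T, z) ≤ b →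
      1 / 4 * Real.log (δ ^ 2 / (2 ^ 15 * T * Real.log (6 * K / (a - b)))) ≤ L T :=
  main hd hT hns hw hwc hLc hL0 hLd hl huv ha haK hK h0 hz hz1 hz2 hz3

end Pool.Agent.Results.MP_79abb3_an.WallAction
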